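import Pool.Agent.H674.AchF.MainFin

/-!
A conditionally convergent series in the plane whose sum range is the plane and whose achievement
set is not the plane, although its complement is a Lebesgue null set and meagre.
-/

set_option autoImplicit false

open Filter Topology MeasureTheory

namespace Pool.Agent.Results.MP_160bbb_an.LargeNonFull

/-- The series `∑ x n` of vectors of the plane is conditionally convergent: it converges, and the sum
of the Euclidean lengths of its terms is infinite. -/
def CondConv (x : ℕ → ℝ × ℝ) : Prop :=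
  (∃ s, Tendsto (fun n => ∑ i ∈ Finset.range n, x i) atTop (𝓝 s)) ∧
  ¬ Summable (fun n => √((x n).1 ^ 2 + (x n).2 ^ 2))

/-- The sum range: all sums of convergent rearrangements. -/
def SumRange (x : ℕ → ℝ × ℝ) : Set (ℝ × ℝ) :=
  {s | ∃ σ : Equiv.Perm ℕ, Tendsto (fun n => ∑ i ∈ Finset.range n, x (σ i)) atTop (𝓝 s)}

/-- The achievement set: all sums `∑ ε n • x n` of convergent series with `ε n ∈ {0, 1}`, the terms
being taken in the given order. -/
def AchSet (x : ℕ → ℝ × ℝ) : Set (ℝ × ℝ) :=
  {s | ∃ ε : ℕ → ℝ, (∀ n, ε n = 0 ∨ ε n = 1) ∧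
    Tendsto (fun n => ∑ i ∈ Finset.range n, ε i • x i) atTop (𝓝 s)}

theorem achSet_eq (x : ℕ → ℝ × ℝ) : AchSet x = Ach.AchSet x := by
  classical
  ext s
  constructor
  · rintro ⟨ε, hε, h⟩
    refine ⟨{n | ε n = 1}, ?_⟩
    convert h using 4 with n i _
    rcases hε i with h0 | h1
    · simp [Set.indicator, h0]
    · simp [Set.indicator, h1]
  · rintro ⟨S, h⟩
    refine ⟨S.indicator 1, fun n => ?_, ?_⟩
    · by_cases hn : n ∈ S <;> simp [Set.indicator, hn]
    · convert h using 4 with n i _
      by_cases hn : i ∈ S <;> simp [Set.indicator, hn]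

/-- There is a conditionally convergent series in the plane with sum range the whole plane whose
achievement set is not the whole plane, but the complement of the achievement set is a Lebesgue null
set and meagre; in particular the achievement set has positive (outer) measure and is of the
second category. -/
theorem result : ∃ x : ℕ → ℝ × ℝ, CondConv x ∧ SumRange x = Set.univ ∧ AchSet x ≠ Set.univ ∧
    volume (AchSet x)ᶜ = 0 ∧ IsMeagre (AchSet x)ᶜ ∧
    0 < volume (AchSet x) ∧ ¬ IsMeagre (AchSet x) := by
  obtain ⟨x, h1, h2, h3, h4, h5⟩ := Ach.main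
  rw [← achSet_eq] at h3 h4 h5
  refine ⟨x, ⟨h1.1, fun hs => ?_⟩, h2, h3, h4, h5, ?_, ?_⟩
  · have hn : Summable (fun n => ‖x n‖) := by
      refine Summable.of_nonneg_of_le (fun n => norm_nonneg _) (fun n => ?_) hs
      rw [Prod.norm_def]
      refine max_le ?_ ?_
      · rw [Real.norm_eq_abs]
        exact Real.abs_le_sqrt (by nlinarith [sq_nonneg (x n).2])
      · rw [Real.norm_eq_abs]
        exact Real.abs_le_sqrt (by nlinarith [sq_nonneg (x n).1])
    exact not_tendsto_nhds_of_tendsto_atTop h1.2 _ hn.hasSum.tendsto_sum_nat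
  · by_contra hc
    have h0 : volume (AchSet x) = 0 := by simpa using hc
    have : volume (Set.univ : Set (ℝ × ℝ)) = 0 := by
      rw [← Set.union_compl_self (AchSet x)]
      exact measure_union_null h0 h4
    simp at this
  · intro hc
    have := hc.union h5
    rw [Set.union_compl_self] at this
    exact not_isMeagre_of_isOpen isOpen_univ Set.univ_nonempty this

end Pool.Agent.Results.MP_160bbb_an.LargeNonFull
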